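import Pool.Agent.Helper89.LD10.STA
import Pool.Agent.Helper8.LD10.Mask

/-!
# Project LD10, block STA10: start of a stage, the sums on a good window (final form)
-/

set_option autoImplicit false

namespace Pool.Agent.Helper89.LD10

open Set MeasureTheory Filter Topology
open Pool.Agent.Helper41.LD6 (hr Qs)
open Pool.Agent.Helper41.LD7 (sp)
open Pool.Agent.Helper78.LD8 (Pm)
open Pool.Agent.Helper78.LD10

variable {F : Pm} {Q K : ℕ} {ℓst a ℓ x : ℝ} {u : ℕ × (Fin (F.d + 1) → ℕ)}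

theorem stage_start10 (hF : F.Ok) (hK : F.Big K) (hQX : Q ≤ F.X) (hN : F.NR K) (hst : 0 < ℓst) (a : ℝ) : Good F Q K ℓst a ℓst :=
  stage_start10_of hF hK hQX a fun _ hu => Pool.Agent.Helper8.LD10.win hF hK hN hst hu a

theorem stage_sums10 (hF : F.Ok) (hK : F.Big K) (hQ : 1 ≤ Q) (hQX : Q ≤ F.X) (hN : F.NR K) (hℓ : 0 < ℓ) (hT : F.T K ℓst ℓ ≤ 2 ^ (2 * K)) (hgood : Good F Q K ℓst a ℓ)
    (hx : x ∈ Icc a (a + ℓ)) (hu : u ∈ Is F Q K) :
    |∑ j ∈ Finset.range (F.T K ℓst ℓ) with (F.n₀ K ℓst + j) % Q = u.1, ∏ i : Fin (F.d + 1), hr (u.2 i) (F.U K ℓst (j + i) x)| ≤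
      131072 * F.X * (F.d + 4) * Q * (K : ℝ) ^ (2 * F.a + 2) * (4 * (F.d + 1) * (K : ℝ)) ^ sp u.2 :=
  stage_sums10_of hF hK hℓ hT hgood hx hu (Pool.Agent.Helper8.LD10.win hF hK hN hℓ hu a) (Pool.Agent.Helper8.LD10.G_NB hu hgood.1)

end Pool.Agent.Helper89.LD10
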