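import Pool.Agent.Helper78.LD10.Defs
import Pool.Agent.Helper44.LD8.TT8
import Pool.Agent.Helper46.LD6.E3
import Pool.Agent.Helper23.LD6.E1
import Pool.Agent.Helper4.LD6.H5
import Pool.Agent.Helper17.LD7.H57

/-!
# Project LD10, block STA10: start of a stage, the sums on a good window
-/

set_option autoImplicit false

namespace Pool.Agent.Helper89.LD10

open Set MeasureTheory Filter Topology
open Pool.Agent.Helper41.LD4 (A M W Pot NB NBg)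
open Pool.Agent.Helper41.LD6 (hr Qs vq lev Wq GQ)
open Pool.Agent.Helper41.LD7 (sp om)
open Pool.Agent.Helper78.LD8 (Pm)
open Pool.Agent.Helper78.LD10
open Pool.Agent.Helper46.LD4 (Pot_nonneg M_of_Pot)
open Pool.Agent.Helper4.LD6 (vq_lo Qs_card)
open Pool.Agent.Helper17.LD7 (sp_lev om_pos)

variable {F : Pm} {Q K : ℕ} {ℓst a ℓ x : ℝ} {u : ℕ × (Fin (F.d + 1) → ℕ)}

lemma Z_le (hK : F.Big K) : F.d + 4 ≤ K ∧ F.X ≤ K := by
  have h0 : F.Z ^ 4 ≤ K := hK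
  have h1 : F.d + 4 ≤ F.Z := by
    unfold Pm.Z
    calc F.d + 4 = 1 * (F.d + 4) := (one_mul _).symm
      _ ≤ 1000 * (F.X + 1) * (F.d + 4) := Nat.mul_le_mul_right _ (by omega)
  have h3 : F.X ≤ F.Z := by
    unfold Pm.Z
    calc F.X = F.X * 1 := (mul_one _).symm
      _ ≤ 1000 * (F.X + 1) * (F.d + 4) := Nat.mul_le_mul (by omega) (by omega)
  have h2 : F.Z ≤ F.Z ^ 4 := Nat.le_self_pow (by norm_num) _
  exact ⟨by omega, by omega⟩

lemma Xb_ge (hF : F.Ok) (hK : F.Big K) : (1 : ℝ) ≤ (F.X : ℝ) * (F.b K : ℕ) := by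
  have h1 := (Z_le hK).1
  have h2 : 0 < F.b K := Nat.pow_pos (by omega)
  have h3 : 1 ≤ F.X * F.b K := Nat.mul_pos hF.hX h2
  exact_mod_cast h3

lemma lam_pos (hF : F.Ok) (hK : F.Big K) (hQ : 1 ≤ Q) : 0 < lam F Q K u := by
  have h1 := Xb_ge hF hK
  unfold lam
  exact mul_pos (by positivity) (om_pos hQ K (lev u.2)).1

lemma lam_le (hF : F.Ok) (hK : F.Big K) (hQ : 1 ≤ Q) : lam F Q K u ≤ 1 / 16384 := by
  have h1 := Xb_ge hF hK
  have h2 := om_pos hQ K (lev u.2)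
  unfold lam
  have h3 : 1 / (16384 * ((F.X : ℝ) * (F.b K : ℕ))) ≤ 1 / 16384 := by
    refine one_div_le_one_div_of_le (by norm_num) ?_
    linarith
  calc 1 / (16384 * ((F.X : ℝ) * (F.b K : ℕ))) * om Q K (lev u.2) ≤ 1 / 16384 * 1 :=
        mul_le_mul h3 h2.2 h2.1.le (by norm_num)
    _ = 1 / 16384 := mul_one _

/-- every window is good at the start -/
theorem stage_start10_of (hF : F.Ok) (hK : F.Big K) (hQX : Q ≤ F.X) (a : ℝ)
    (hwin : ∀ u ∈ Is F Q K, Wq (G F Q K ℓst u) (2 * vq u.2) ((1 / 2) ^ (2 * F.e K)) (2 ^ (2 * K)) (F.T K ℓst ℓst) a ℓst) :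
    Good F Q K ℓst a ℓst := by
  have hT := Pool.Agent.Helper44.LD8.T_start F K ℓst
  obtain ⟨hKd4, hXK⟩ := Z_le hK
  have hr4 : F.d + 4 ≤ F.r K := by
    unfold Pm.r Pm.E
    have h1 : K ≤ K ^ F.a := Nat.le_self_pow (by have := hF.ha; omega) K
    have h2 : 1 * K ^ F.a ≤ 5 * F.X * K ^ F.a := Nat.mul_le_mul_right _ (by have := hF.hX; omega)
    omega
  refine ⟨fun j hj => ?_, ?_⟩
  · rw [hT] at hj
    omega
  rw [hT]
  have h1 : ∀ u ∈ Is F Q K, Pot (G F Q K ℓst u) 0 (F.r K) (lam F Q K u) a ℓst ≤ 2 := by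
    intro u hu
    have hu' := Finset.mem_product.1 hu
    have hQ : 1 ≤ Q := by
      have := Finset.mem_range.1 hu'.1
      omega
    have hw := hwin u hu
    rw [hT] at hw
    refine Pool.Agent.Helper46.LD6.pot_start hw (lam_pos hF hK hQ).le ?_
    have h2 := lam_le (u := u) hF hK hQ
    have h3 := (vq_lo hu'.2).2
    have h4 : 0 ≤ vq u.2 := le_trans (by positivity) (vq_lo hu'.2).1
    calc lam F Q K u * (2 * vq u.2) ≤ 1 / 16384 * (2 * 1) :=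
          mul_le_mul h2 (by linarith) (by positivity) (by norm_num)
      _ ≤ 1 / 2 := by norm_num
  refine (Finset.sum_le_sum h1).trans ?_
  rw [Finset.sum_const, nsmul_eq_mul]
  have hKd : K * (F.d + 1) ≤ F.e K := by
    unfold Pm.e
    rw [mul_comm]
    exact Nat.mul_le_mul_right _ (by omega)
  have he : 1 ≤ F.e K := by
    unfold Pm.e
    exact Nat.mul_pos (by omega) (by omega)
  have hKe : K ≤ F.e K := by
    unfold Pm.e
    exact Nat.le_mul_of_pos_left K (by omega)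
  have h2 : ((Is F Q K).card : ℝ) ≤ 2 ^ F.e K * 2 ^ F.e K := by
    have h3 : (Qs F.d K).card ≤ 2 ^ F.e K := (Qs_card F.d K).trans (Nat.pow_le_pow_right (by norm_num) hKd)
    have h4 : Q ≤ 2 ^ F.e K := by
      have h5 : F.e K < 2 ^ F.e K := Nat.lt_two_pow_self
      omega
    have h6 : (Is F Q K).card ≤ 2 ^ F.e K * 2 ^ F.e K := by
      unfold Is
      rw [Finset.card_product, Finset.card_range]
      exact Nat.mul_le_mul h4 h3
    exact_mod_cast h6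
  calc ((Is F Q K).card : ℝ) * 2 ≤ (2 ^ F.e K * 2 ^ F.e K) * 2 := mul_le_mul_of_nonneg_right h2 (by norm_num)
    _ = 2 ^ (F.e K + F.e K + 1) := by rw [pow_succ, pow_add]
    _ ≤ 2 ^ (4 * F.e K) := pow_le_pow_right₀ (by norm_num) (by omega)
    _ = 16 ^ F.e K := by rw [pow_mul]; norm_num

lemma inv_lam (hF : F.Ok) (hK : F.Big K) (hQ : 1 ≤ Q) (hK1 : 1 ≤ K) :
    1 / lam F Q K u ≤ 16384 * (F.X * (K : ℝ) ^ (2 * F.a + 1)) * Q * (4 * (F.d + 1) * (K : ℝ)) ^ sp u.2 := by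
  have h1 := Xb_ge hF hK
  have hKr : (1 : ℝ) ≤ K := by exact_mod_cast hK1
  have hQr : (0 : ℝ) < Q := by exact_mod_cast hQ
  have hb : ((F.b K : ℕ) : ℝ) = (K : ℝ) ^ (2 * F.a + 1) := by
    unfold Pm.b
    push_cast
    rfl
  have hd : (0 : ℝ) ≤ (F.d : ℝ) := Nat.cast_nonneg _
  have e1 : 1 / lam F Q K u = 16384 * ((F.X : ℝ) * (F.b K : ℕ)) * (Q * (2 * ((F.d : ℝ) + 1) * ((K : ℝ) + 1)) ^ sp u.2) := by
    unfold lam om
    rw [sp_lev, one_div_pow, one_div_mul_one_div, one_div_mul_one_div, one_div_one_div]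
  rw [e1, hb]
  have h3 : (2 * ((F.d : ℝ) + 1) * ((K : ℝ) + 1)) ^ sp u.2 ≤ (4 * (F.d + 1) * (K : ℝ)) ^ sp u.2 := by
    refine pow_le_pow_left₀ (by positivity) ?_ _
    nlinarith
  calc 16384 * ((F.X : ℝ) * (K : ℝ) ^ (2 * F.a + 1)) * (Q * (2 * ((F.d : ℝ) + 1) * ((K : ℝ) + 1)) ^ sp u.2) ≤
        16384 * ((F.X : ℝ) * (K : ℝ) ^ (2 * F.a + 1)) * (Q * (4 * (F.d + 1) * (K : ℝ)) ^ sp u.2) := by gcongr
    _ = 16384 * (F.X * (K : ℝ) ^ (2 * F.a + 1)) * Q * (4 * (F.d + 1) * (K : ℝ)) ^ sp u.2 := by ring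

/-- the sums on a good window -/
theorem stage_sums10_of (hF : F.Ok) (hK : F.Big K) (hℓ : 0 < ℓ) (hT : F.T K ℓst ℓ ≤ 2 ^ (2 * K)) (hgood : Good F Q K ℓst a ℓ)
    (hx : x ∈ Icc a (a + ℓ)) (hu : u ∈ Is F Q K)
    (hw : Wq (G F Q K ℓst u) (2 * vq u.2) ((1 / 2) ^ (2 * F.e K)) (2 ^ (2 * K)) (F.T K ℓst ℓ) a ℓ)
    (hNB : NB (G F Q K ℓst u) (F.T K ℓst ℓ) (F.r K) a ℓ) :
    |∑ j ∈ Finset.range (F.T K ℓst ℓ) with (F.n₀ K ℓst + j) % Q = u.1, ∏ i : Fin (F.d + 1), hr (u.2 i) (F.U K ℓst (j + i) x)| ≤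
      131072 * F.X * (F.d + 4) * Q * (K : ℝ) ^ (2 * F.a + 2) * (4 * (F.d + 1) * (K : ℝ)) ^ sp u.2 := by
  have hu' := Finset.mem_product.1 hu
  have hQ : 1 ≤ Q := by
    have := Finset.mem_range.1 hu'.1
    omega
  have hK1 : 1 ≤ K := by
    have := (Z_le hK).1
    omega
  have hKr : (1 : ℝ) ≤ K := by exact_mod_cast hK1
  have hXr : (1 : ℝ) ≤ F.X := by exact_mod_cast hF.hX
  have hQr : (1 : ℝ) ≤ Q := by exact_mod_cast hQ
  have h1 := Pool.Agent.Helper23.LD6.sum_sub_M hw hNB hx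
  have hPot : Pot (G F Q K ℓst u) (F.T K ℓst ℓ) (F.r K) (lam F Q K u) a ℓ ≤ 16 ^ F.e K :=
    (Finset.single_le_sum (f := fun p : ℕ × (Fin (F.d + 1) → ℕ) => Pot (G F Q K ℓst p) (F.T K ℓst ℓ) (F.r K) (lam F Q K p) a ℓ)
      (fun p _ => Pot_nonneg _ _ _ _ _ hℓ) hu).trans hgood.2
  have h2 := M_of_Pot hℓ (lam_pos hF hK hQ) hPot
  have h3 : ∑ j ∈ Finset.range (F.T K ℓst ℓ) with (F.n₀ K ℓst + j) % Q = u.1, ∏ i : Fin (F.d + 1), hr (u.2 i) (F.U K ℓst (j + i) x) =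
      (∑ j ∈ Finset.range (F.T K ℓst ℓ), G F Q K ℓst u j x - M (G F Q K ℓst u) a ℓ) + M (G F Q K ℓst u) a ℓ := by
    rw [sub_add_cancel, Finset.sum_filter]
    refine Finset.sum_congr rfl fun j hj => ?_
    rw [Finset.mem_range] at hj
    unfold G Pm.G GQ
    split_ifs with h4 h5
    · rfl
    · exact absurd (lt_of_lt_of_le hj hT) h5
    · rfl
  rw [h3]
  refine (abs_add_le _ _).trans ((add_le_add h1 h2).trans ?_)
  -- the two parts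
  have hv := (vq_lo hu'.2).2
  have hd0 : (0 : ℝ) ≤ (F.d : ℝ) := Nat.cast_nonneg _
  have hsp : (1 : ℝ) ≤ (4 * (F.d + 1) * (K : ℝ)) ^ sp u.2 := by
    refine one_le_pow₀ ?_
    nlinarith
  have hd4 : (1 : ℝ) ≤ (F.d : ℝ) + 4 := by linarith
  obtain ⟨Y, hY⟩ : ∃ Y : ℝ, Y = F.X * (F.d + 4) * Q * (K : ℝ) ^ (2 * F.a + 2) * (4 * (F.d + 1) * (K : ℝ)) ^ sp u.2 := ⟨_, rfl⟩
  have e0 : (F.X : ℝ) * (K : ℝ) ^ (2 * F.a + 2) ≤ Y := by
    rw [hY]
    calc (F.X : ℝ) * (K : ℝ) ^ (2 * F.a + 2) = F.X * 1 * 1 * (K : ℝ) ^ (2 * F.a + 2) * 1 := by ring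
      _ ≤ F.X * (F.d + 4) * Q * (K : ℝ) ^ (2 * F.a + 2) * (4 * (F.d + 1) * (K : ℝ)) ^ sp u.2 := by gcongr
  have e1 : ((F.r K : ℕ) : ℝ) ≤ 5 * Y := by
    have h5 : ((F.r K : ℕ) : ℝ) = 5 * F.X * (K : ℝ) ^ F.a := by
      unfold Pm.r Pm.E
      push_cast
      ring
    rw [h5]
    have h6 : (K : ℝ) ^ F.a ≤ (K : ℝ) ^ (2 * F.a + 2) := pow_le_pow_right₀ hKr (by omega)
    calc 5 * (F.X : ℝ) * (K : ℝ) ^ F.a ≤ 5 * (F.X : ℝ) * (K : ℝ) ^ (2 * F.a + 2) := by gcongr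
      _ = 5 * ((F.X : ℝ) * (K : ℝ) ^ (2 * F.a + 2)) := by ring
      _ ≤ 5 * Y := by linarith
  have e2 : 1 ≤ Y := by
    refine le_trans ?_ e0
    exact one_le_mul_of_one_le_of_one_le hXr (one_le_pow₀ hKr)
  have e3 : (3 * (F.e K : ℝ) + 1) / lam F Q K u ≤ 65536 * Y := by
    rw [div_eq_mul_one_div]
    have h7 := inv_lam (u := u) hF hK hQ hK1
    have h8 : (F.e K : ℝ) = (F.d + 4) * K := by
      unfold Pm.e
      push_cast
      ring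
    have h9 : 3 * (F.e K : ℝ) + 1 ≤ 4 * ((F.d + 4) * K) := by
      rw [h8]
      have : (1 : ℝ) ≤ (F.d + 4) * K := one_le_mul_of_one_le_of_one_le hd4 hKr
      linarith
    have hl : 0 ≤ 1 / lam F Q K u := by
      have := lam_pos (u := u) hF hK hQ
      positivity
    calc (3 * (F.e K : ℝ) + 1) * (1 / lam F Q K u) ≤
          4 * ((F.d + 4) * K) * (16384 * (F.X * (K : ℝ) ^ (2 * F.a + 1)) * Q * (4 * (F.d + 1) * (K : ℝ)) ^ sp u.2) :=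
            mul_le_mul h9 h7 hl (by positivity)
      _ = 65536 * Y := by
          rw [hY]
          ring
  have e4 : 131072 * (F.X : ℝ) * (F.d + 4) * Q * (K : ℝ) ^ (2 * F.a + 2) * (4 * (F.d + 1) * (K : ℝ)) ^ sp u.2 = 131072 * Y := by
    rw [hY]
    ring
  rw [e4]
  linarith

end Pool.Agent.Helper89.LD10
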